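import Pool.Agent.Q286.XG.Cl2

/-!
# Project IX (helper286), job IX-VIRT: the explicit form of a virtual L-function

The statement `virt_` has literally the body of `Pool.Agent.Q286.IX.S_Virt` (`WZ` is a copy of `Pool.Agent.Q286.IX.WZ`).
-/

set_option autoImplicit false

namespace Pool.Agent.Q153.IX

open Filter Topology Finset MeasureTheory
open Pool.Agent.Q286.TR
open Pool.Agent.TH839.NA (RawT RawTL)

/-- copy of `Pool.Agent.Q286.IX.WZ` -/
noncomputable def WZ (r : ℤ) (Q : ℝ) (γ : ℂ → ℂ) (t : ℕ → ℂ) (a : ℝ) (f : ℝ → ℂ) : ℝ :=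
  2 * r * (M f 1 * (starRingEnd ℂ) (M f 0)).re +
    1 / (2 * Real.pi) * (∫ x : ℝ, (Real.log Q + 2 * (logDeriv γ (1 / 2 + x * Complex.I)).re) * ‖M f (1 / 2 + x * Complex.I)‖ ^ 2) -
    2 * (∑ n ∈ Finset.Icc 1 ⌊Real.exp (2 * a)⌋₊, ArithmeticFunction.vonMangoldt n / Real.sqrt n * t n *
      ∫ x : ℝ, f (x + Real.log n) * (starRingEnd ℂ) (f x)).re

/-- the logarithmic derivative of a product of integer powers -/
lemma ld {r : ℕ} (z : ℂ) (g : Fin r → ℂ → ℂ) (e : Fin r → ℤ) (hd : ∀ i, DifferentiableAt ℂ (g i) z)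
    (hn : ∀ i, g i z ≠ 0) : logDeriv (fun s => ∏ i, g i s ^ e i) z = ∑ i, (e i : ℂ) * logDeriv (g i) z := by
  rw [logDeriv_prod (s := univ) (f := fun i s => g i s ^ e i) (x := z) (fun i _ => zpow_ne_zero _ (hn i))
    (fun i _ => (hd i).zpow (Or.inl (hn i)))]
  exact Finset.sum_congr rfl fun i _ => logDeriv_fun_zpow (hd i) (e i)

/-- facts on an object of the class -/
lemma ext {m r : ℕ} {Q : ℝ} {γ G : ℂ → ℂ} (h : InD m r Q γ G) : 1 ≤ Q ∧
    (∀ x : ℝ, DifferentiableAt ℂ γ (1 / 2 + x * Complex.I) ∧ γ (1 / 2 + x * Complex.I) ≠ 0) ∧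
    (∀ (a : ℝ) (f : ℝ → ℂ), 0 < a → Y23.G.Hd a f → Integrable (fun x : ℝ =>
      (Real.log Q + 2 * (logDeriv γ (1 / 2 + x * Complex.I)).re) * ‖M f (1 / 2 + x * Complex.I)‖ ^ 2)) ∧
    ∃ σ : ℝ, ∀ s : ℂ, σ ≤ s.re → DifferentiableAt ℂ G s ∧ G s ≠ 0 := by
  obtain ⟨l, b, c, X, hlm, w, ha, hγ, σ, hσ⟩ := h
  refine ⟨w.hN, fun x => ?_, fun a f h0 hf => ?_, max σ 3 + 1, fun s hs => ?_⟩
  · have h1 := logDeriv_gam l (1 / 2 + x * Complex.I) (fun α hα => by
      have := ha α hα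
      simp only [Complex.add_re, Complex.mul_re, Complex.ofReal_re, Complex.I_re, Complex.ofReal_im,
        Complex.I_im, mul_zero, mul_one, sub_self, add_zero]
      norm_num
      linarith)
    have hγ' : γ = fun s => (l.map fun α => Complex.Gammaℝ (s + α)).prod := funext hγ
    rw [hγ']
    exact ⟨h1.2.1, h1.2.2⟩
  · have e : ∀ x : ℝ, Real.log Q + 2 * (logDeriv γ (1 / 2 + x * Complex.I)).re =
        Y23.G.GD (L := toL (ofRawT w ha)) x := by
      intro x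
      rw [GD_eq, arch_eq l ha hγ]
      rfl
    simp only [e, M_line]
    obtain ⟨C, hC, hGD⟩ := Y23.G.GD_bd (L := toL (ofRawT w ha))
    refine (hf.2.const_mul C).mono' (Continuous.aestronglyMeasurable
      ((Y23.G.GD_cont (L := toL (ofRawT w ha))).mul (Y23.G.gsq_cont hf.1))) (Eventually.of_forall fun x => ?_)
    rw [norm_mul, Real.norm_eq_abs, Real.norm_of_nonneg (sq_nonneg _), ← mul_assoc]
    exact mul_le_mul_of_nonneg_right (hGD x).1 (sq_nonneg _)
  · have h3 : 3 < s.re := by linarith [le_max_right σ 3]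
    have h4 : σ < s.re := by linarith [le_max_left σ 3]
    have hopen : IsOpen {z : ℂ | σ < z.re} := isOpen_lt continuous_const Complex.continuous_re
    have hev : G =ᶠ[𝓝 s] LSeries b := by
      filter_upwards [hopen.mem_nhds h4] with z hz
      exact hσ z (le_of_lt hz)
    have hn := (RawT.coef w (s := s) (by linarith)).2.1
    have h5 := (RawT.coef w (s := ((3 : ℝ) : ℂ)) (by rw [Complex.ofReal_re]; norm_num)).1.abscissaOfAbsConv_le
    rw [Complex.ofReal_re] at h5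
    have habs : LSeries.abscissaOfAbsConv b < s.re := lt_of_le_of_lt h5 (by exact_mod_cast h3)
    have hd := (LSeries_hasDerivAt habs).differentiableAt
    exact ⟨hev.differentiableAt_iff.2 hd, by rw [hev.eq_of_nhds]; exact hn⟩

theorem virt_ : ∀ (r : ℕ) (e : Fin r → ℤ) (m p : Fin r → ℕ) (Q : Fin r → ℝ) (γ G : Fin r → ℂ → ℂ), (∀ i, InD (m i) (p i) (Q i) (γ i) (G i)) →
  ∃ L : Fin r → LFunction, (∀ i, (L i).m = m i ∧ (L i).Q = Q i) ∧ (∀ i, IsComp (p i) (Q i) (γ i) (G i) (L i).Λ) ∧ (∀ i Λ, IsComp (p i) (Q i) (γ i) (G i) Λ → Λ = (L i).Λ) ∧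
    (∃ t, IsTr (fun s => ∏ i, G i s ^ e i) t) ∧
    ∀ t, IsTr (fun s => ∏ i, G i s ^ e i) t → ∀ (a : ℝ) (f : ℝ → ℂ), 0 < a → Y23.G.Hd a f →
      WZ (∑ i, e i * p i) (∏ i, Q i ^ e i) (fun s => ∏ i, γ i s ^ e i) t a f = ∑ i, (e i : ℝ) * W (L i) a f := by
  intro r e m p Q γ G hD
  have h1 := fun i => (hD i).lf
  choose t0 ht0 using fun i => (h1 i).1
  choose L hLm hLQ hcomp huniq hW using fun i => (h1 i).2
  choose hQ hγ hint σ hσ using fun i => ext (hD i)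
  have hIs : IsTr (fun s => ∏ i, G i s ^ e i) (fun n => ∑ i, (e i : ℂ) * t0 i n) := by
    choose σ' hσ' using ht0
    have hS : ∀ i, σ i ≤ ∑ j, (|σ j| + |σ' j|) ∧ σ' i ≤ ∑ j, (|σ j| + |σ' j|) := by
      intro i
      have h2 : |σ i| + |σ' i| ≤ ∑ j, (|σ j| + |σ' j|) :=
        Finset.single_le_sum (f := fun j => |σ j| + |σ' j|) (fun j _ => by positivity) (mem_univ i)
      have h3 := le_abs_self (σ i)
      have h4 := le_abs_self (σ' i)
      have h5 := abs_nonneg (σ i)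
      have h6 := abs_nonneg (σ' i)
      constructor <;> linarith
    refine ⟨∑ j, (|σ j| + |σ' j|), fun s hs => ?_⟩
    have h2 : ∀ i, HasSum (fun n : ℕ => (e i : ℂ) * (((ArithmeticFunction.vonMangoldt n : ℝ) : ℂ) * t0 i n * (n : ℂ) ^ (-s)))
        ((e i : ℂ) * (-logDeriv (G i) s)) := fun i => (hσ' i s ((hS i).2.trans hs)).mul_left _
    have h3 : (fun n : ℕ => ((ArithmeticFunction.vonMangoldt n : ℝ) : ℂ) * (∑ i, (e i : ℂ) * t0 i n) * (n : ℂ) ^ (-s)) =
        fun n => ∑ i, (e i : ℂ) * (((ArithmeticFunction.vonMangoldt n : ℝ) : ℂ) * t0 i n * (n : ℂ) ^ (-s)) := by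
      funext n
      rw [Finset.mul_sum, Finset.sum_mul]
      exact Finset.sum_congr rfl fun i _ => by ring
    have h4 : -logDeriv (fun s => ∏ i, G i s ^ e i) s = ∑ i, (e i : ℂ) * (-logDeriv (G i) s) := by
      rw [ld s G e (fun i => (hσ i s ((hS i).1.trans hs)).1) (fun i => (hσ i s ((hS i).1.trans hs)).2),
        ← Finset.sum_neg_distrib]
      exact Finset.sum_congr rfl fun i _ => (mul_neg _ _).symm
    rw [h3, h4]
    exact hasSum_sum fun i _ => h2 i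
  refine ⟨L, fun i => ⟨hLm i, hLQ i⟩, hcomp, huniq, ⟨_, hIs⟩, fun t ht a f ha hf => ?_⟩
  have hWi : ∀ i, W (L i) a f = WG (p i) (Q i) (γ i) (t0 i) a f := fun i => (hW i (t0 i) (ht0 i) a f).symm
  simp only [hWi]
  unfold WZ WG
  have hpole : 2 * ((∑ i, e i * p i : ℤ) : ℝ) * (M f 1 * (starRingEnd ℂ) (M f 0)).re =
      ∑ i, (e i : ℝ) * (2 * (p i : ℝ) * (M f 1 * (starRingEnd ℂ) (M f 0)).re) := by
    push_cast
    rw [Finset.mul_sum, Finset.sum_mul]
    exact Finset.sum_congr rfl fun i _ => by ring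
  have hpt : ∀ x : ℝ, (Real.log (∏ i, Q i ^ e i) + 2 * (logDeriv (fun s => ∏ i, γ i s ^ e i) (1 / 2 + x * Complex.I)).re) *
      ‖M f (1 / 2 + x * Complex.I)‖ ^ 2 = ∑ i, (e i : ℝ) * ((Real.log (Q i) +
        2 * (logDeriv (γ i) (1 / 2 + x * Complex.I)).re) * ‖M f (1 / 2 + x * Complex.I)‖ ^ 2) := by
    intro x
    rw [ld _ γ e (fun i => (hγ i x).1) (fun i => (hγ i x).2),
      Real.log_prod (fun i _ => zpow_ne_zero _ (by have := hQ i; linarith)), Complex.re_sum, Finset.mul_sum,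
      ← Finset.sum_add_distrib, Finset.sum_mul]
    refine Finset.sum_congr rfl fun i _ => ?_
    have h5 : ((e i : ℂ) * logDeriv (γ i) (1 / 2 + x * Complex.I)).re =
        (e i : ℝ) * (logDeriv (γ i) (1 / 2 + x * Complex.I)).re := by
      rw [show (e i : ℂ) = (((e i : ℝ)) : ℂ) by push_cast; rfl, Complex.re_ofReal_mul]
    rw [h5, Real.log_zpow]
    ring
  have harch : (∫ x : ℝ, (Real.log (∏ i, Q i ^ e i) + 2 * (logDeriv (fun s => ∏ i, γ i s ^ e i) (1 / 2 + x * Complex.I)).re) *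
      ‖M f (1 / 2 + x * Complex.I)‖ ^ 2) = ∑ i, (e i : ℝ) * ∫ x : ℝ, ((Real.log (Q i) +
        2 * (logDeriv (γ i) (1 / 2 + x * Complex.I)).re) * ‖M f (1 / 2 + x * Complex.I)‖ ^ 2) := by
    rw [integral_congr_ae (Eventually.of_forall hpt), integral_finsetSum _ fun i _ => (hint i a f ha hf).const_mul _]
    exact Finset.sum_congr rfl fun i _ => integral_const_mul _ _
  have hprime : (∑ n ∈ Finset.Icc 1 ⌊Real.exp (2 * a)⌋₊, ArithmeticFunction.vonMangoldt n / Real.sqrt n * t n *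
      ∫ x : ℝ, f (x + Real.log n) * (starRingEnd ℂ) (f x)).re = ∑ i, (e i : ℝ) *
        (∑ n ∈ Finset.Icc 1 ⌊Real.exp (2 * a)⌋₊, ArithmeticFunction.vonMangoldt n / Real.sqrt n * t0 i n *
      ∫ x : ℝ, f (x + Real.log n) * (starRingEnd ℂ) (f x)).re := by
    have h6 : (∑ n ∈ Finset.Icc 1 ⌊Real.exp (2 * a)⌋₊, ((ArithmeticFunction.vonMangoldt n : ℝ) : ℂ) / ((Real.sqrt n : ℝ) : ℂ) * t n *
        ∫ x : ℝ, f (x + Real.log n) * (starRingEnd ℂ) (f x)) = ∑ i, ((e i : ℝ) : ℂ) *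
        (∑ n ∈ Finset.Icc 1 ⌊Real.exp (2 * a)⌋₊, ((ArithmeticFunction.vonMangoldt n : ℝ) : ℂ) / ((Real.sqrt n : ℝ) : ℂ) * t0 i n *
      ∫ x : ℝ, f (x + Real.log n) * (starRingEnd ℂ) (f x)) := by
      simp only [Finset.mul_sum]
      rw [Finset.sum_comm]
      refine Finset.sum_congr rfl fun n _ => ?_
      have h7 := tr_uniq ht hIs n
      rw [div_mul_eq_mul_div, h7, Finset.mul_sum, Finset.sum_div, Finset.sum_mul]
      refine Finset.sum_congr rfl fun i _ => ?_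
      push_cast
      ring
    rw [h6, Complex.re_sum]
    exact Finset.sum_congr rfl fun i _ => Complex.re_ofReal_mul _ _
  rw [hpole, harch, hprime, Finset.mul_sum, Finset.mul_sum, ← Finset.sum_add_distrib, ← Finset.sum_sub_distrib]
  exact Finset.sum_congr rfl fun i _ => by ring

end Pool.Agent.Q153.IX
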